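import Pool.Agent.Helper662.Rg.Defs

set_option autoImplicit false
set_option linter.unusedVariables false

namespace Pool.Agent.Helper662.Rg
open Set Filter Topology ComplexConjugate


theorem star2 {Y g θ q β Bt Aa κ K₀ : ℝ} (hY : 0 ≤ Y) (hg : 0 < g) (hθ : 0 ≤ θ)
    (hq : q = g + Y * θ) (hβ : β = Y * (Y + 1)) (hBt : Bt = (2 * Y + 1) * θ - β * θ ^ 2 / q)
    (hκ : κ / 2 ≤ Aa) (hK0 : 0 ≤ K₀) (hK : K₀ ≤ 1 / 2) (hbase : 2 * K₀ * g ^ 2 ≤ κ / 2 + θ * g) :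
    K₀ * q ^ 2 ≤ Aa + q * Bt := by
  have hYθ : 0 ≤ Y * θ := mul_nonneg hY hθ
  have hq0 : 0 < q := by
    rw [hq]
    linarith
  have h1 : q * Bt = (2 * Y + 1) * θ * g + Y ^ 2 * θ ^ 2 := by
    have h2 : q * Bt = (2 * Y + 1) * θ * q - β * θ ^ 2 := by
      rw [hBt]
      field_simp
    rw [h2, hβ, hq]
    ring
  have h3 : q ^ 2 ≤ 2 * g ^ 2 + 2 * (Y * θ) ^ 2 := by
    rw [hq]
    nlinarith [sq_nonneg (g - Y * θ)]
  have h4 : K₀ * q ^ 2 ≤ K₀ * (2 * g ^ 2 + 2 * (Y * θ) ^ 2) := mul_le_mul_of_nonneg_left h3 hK0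
  have h5 : 2 * K₀ * (Y * θ) ^ 2 ≤ (Y * θ) ^ 2 := by
    have := mul_le_mul_of_nonneg_right hK (sq_nonneg (Y * θ))
    linarith
  have h6 : 0 ≤ Y * θ * g := mul_nonneg hYθ hg.le
  rw [h1]
  nlinarith

end Pool.Agent.Helper662.Rg
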