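import Pool.Agent.Helper662.Rg.Defs

set_option autoImplicit false
set_option linter.unusedVariables false

namespace Pool.Agent.Helper662.Rg
open Set Filter Topology ComplexConjugate


/-- iterated slopes at zero -/
noncomputable def FF (g : ℂ → ℂ) (m : ℕ) : ℂ → ℂ := (Function.swap dslope (0:ℂ))^[m] g

theorem FF_succ (g : ℂ → ℂ) (m : ℕ) : FF g (m + 1) = dslope (FF g m) 0 := by
  unfold FF
  rw [Function.iterate_succ_apply']

theorem FF_zero (g : ℂ → ℂ) : FF g 0 = g := rfl

theorem FF_coeff {g : ℂ → ℂ} (hg : AnalyticAt ℂ g 0) (m : ℕ) :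
    FF g m 0 = iteratedDeriv m g 0 / (m.factorial : ℂ) := by
  have h1 := hg.hasFPowerSeriesAt
  have h2 := h1.has_fpower_series_iterate_dslope_fslope m
  have h3 := h2.coeff_zero 1
  rw [← FormalMultilinearSeries.coeff, FormalMultilinearSeries.coeff_iterate_fslope, zero_add,
    FormalMultilinearSeries.coeff_ofScalars] at h3
  exact h3.symm

theorem FF_reg {g : ℂ → ℂ} {r B : ℝ} (hr : 0 < r) (hB : 0 ≤ B)
    (hd : DifferentiableOn ℂ g (Metric.ball 0 r)) (hb : ∀ w ∈ Metric.ball (0:ℂ) r, ‖g w‖ ≤ B)
    (m : ℕ) : DifferentiableOn ℂ (FF g m) (Metric.ball 0 r) ∧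
      ∀ w ∈ Metric.ball (0:ℂ) r, ‖FF g m w‖ ≤ (2 / r) ^ m * B := by
  induction m with
  | zero => exact ⟨hd, fun w hw => by simpa [FF_zero] using hb w hw⟩
  | succ m ih =>
    obtain ⟨ih1, ih2⟩ := ih
    rw [FF_succ]
    refine ⟨(Complex.differentiableOn_dslope (Metric.ball_mem_nhds 0 hr)).mpr ih1, fun w hw => ?_⟩
    have hmaps : MapsTo (FF g m) (Metric.ball 0 r)
        (Metric.closedBall (FF g m 0) (2 * ((2 / r) ^ m * B))) := by
      intro v hv
      rw [Metric.mem_closedBall, dist_eq_norm]
      have h1 := ih2 v hv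
      have h2 := ih2 0 (Metric.mem_ball_self hr)
      have h3 := norm_sub_le (FF g m v) (FF g m 0)
      linarith
    have h4 := Complex.norm_dslope_le_div_of_mapsTo_ball ih1 hmaps hw
    refine h4.trans (le_of_eq ?_)
    rw [pow_succ]
    ring

theorem fibre {k : ℂ → ℝ} (hk : Continuous k) (hpos : ∀ z, 0 < k z) {f : ℂ × ℂ → ℂ} {Bd : ℝ}
    (hf : DifferentiableOn ℂ f {p : ℂ × ℂ | ‖p.2‖ ^ 2 * k p.1 < 1})
    (hb : ∀ p : ℂ × ℂ, ‖p.2‖ ^ 2 * k p.1 < 1 → ‖f p‖ ≤ Bd) (m : ℕ) :
    Differentiable ℂ (fun z => iteratedDeriv m (fun w => f (z, w)) 0) ∧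
    ∀ z : ℂ, ‖iteratedDeriv m (fun w => f (z, w)) 0 / (m.factorial : ℂ)‖ ^ 2 ≤ Bd ^ 2 * k z ^ m := by
  set U : Set (ℂ × ℂ) := {p : ℂ × ℂ | ‖p.2‖ ^ 2 * k p.1 < 1} with hU
  have hUo : IsOpen U :=
    isOpen_lt ((continuous_snd.norm.pow 2).mul (hk.comp continuous_fst)) continuous_const
  have hfd : ∀ p ∈ U, DifferentiableAt ℂ f p := fun p hp =>
    (hf p hp).differentiableAt (hUo.mem_nhds hp)
  have h0U : ∀ z : ℂ, (z, (0 : ℂ)) ∈ U := by
    intro z
    simp [hU]
  have hBd : 0 ≤ Bd := (norm_nonneg _).trans (hb (0, 0) (by simp))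
  have hfib : ∀ z w : ℂ, (z, w) ∈ U → DifferentiableAt ℂ (fun v => f (z, v)) w := by
    intro z w h
    exact DifferentiableAt.comp w (hfd _ h) ((differentiableAt_const _).prodMk differentiableAt_id)
  have hfib2 : ∀ z w : ℂ, (z, w) ∈ U → DifferentiableAt ℂ (fun v => f (v, w)) z := by
    intro z w h
    exact DifferentiableAt.comp z (hfd _ h) (differentiableAt_id.prodMk (differentiableAt_const _))
  have hana : ∀ z : ℂ, AnalyticAt ℂ (fun w => f (z, w)) 0 := by
    intro z
    have h1 : {w : ℂ | (z, w) ∈ U} ∈ 𝓝 (0:ℂ) := by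
      have : IsOpen {w : ℂ | (z, w) ∈ U} := hUo.preimage (by fun_prop)
      exact this.mem_nhds (h0U z)
    have h2 : DifferentiableOn ℂ (fun w => f (z, w)) {w : ℂ | (z, w) ∈ U} :=
      fun w hw => (hfib z w hw).differentiableWithinAt
    exact h2.analyticAt h1
  constructor
  · intro z0
    have hk0 := hpos z0
    set K : ℝ := k z0 + 1 with hK
    have hKpos : 0 < K := by linarith
    set r : ℝ := 1 / (K + 1) with hr
    have hrpos : 0 < r := by positivity
    have hr1 : r < 1 := by
      rw [hr, div_lt_one (by linarith)]; linarith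
    have hrK : r * K < 1 := by
      rw [hr, one_div, inv_mul_lt_iff₀ (by linarith)]; linarith
    have hr2K : r ^ 2 * K < 1 := by
      have : r ^ 2 * K = r * (r * K) := by ring
      rw [this]
      nlinarith
    have hev : ∀ᶠ z in nhds z0, k z < K :=
      hk.continuousAt.eventually_lt_const (by linarith)
    obtain ⟨δ, hδ, hball⟩ := Metric.eventually_nhds_iff_ball.1 hev
    have hin : ∀ z ∈ Metric.ball z0 δ, ∀ w ∈ Metric.ball (0:ℂ) r, (z, w) ∈ U := by
      intro z hz w hw
      have h2 := hball z hz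
      have hw' : ‖w‖ < r := by simpa using hw
      have hkz := hpos z
      have h3 : ‖w‖ ^ 2 ≤ r ^ 2 := pow_le_pow_left₀ (norm_nonneg _) hw'.le 2
      change ‖w‖ ^ 2 * k z < 1
      calc ‖w‖ ^ 2 * k z ≤ r ^ 2 * k z := mul_le_mul_of_nonneg_right h3 hkz.le
        _ ≤ r ^ 2 * K := mul_le_mul_of_nonneg_left h2.le (by positivity)
        _ < 1 := hr2K
    have hreg : ∀ j : ℕ, ∀ z ∈ Metric.ball z0 δ,
        DifferentiableOn ℂ (FF (fun w => f (z, w)) j) (Metric.ball 0 r) ∧
        ∀ w ∈ Metric.ball (0:ℂ) r, ‖FF (fun w => f (z, w)) j w‖ ≤ (2 / r) ^ j * Bd := by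
      intro j z hz
      exact FF_reg hrpos hBd (fun w hw => (hfib z w (hin z hz w hw)).differentiableWithinAt)
        (fun w hw => hb _ (hin z hz w hw)) j
    have hmain : ∀ j : ℕ, ∀ w ∈ Metric.ball (0:ℂ) r,
        DifferentiableOn ℂ (fun z => FF (fun w => f (z, w)) j w) (Metric.ball z0 δ) := by
      intro j
      induction j with
      | zero =>
        intro w hw z hz
        exact (hfib2 z w (hin z hz w hw)).differentiableWithinAt
      | succ j ih =>
        have hne : ∀ w ∈ Metric.ball (0:ℂ) r, w ≠ 0 →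
            DifferentiableOn ℂ (fun z => FF (fun w => f (z, w)) (j + 1) w) (Metric.ball z0 δ) := by
          intro w hw hw0
          have h1 := ((ih w hw).sub (ih 0 (Metric.mem_ball_self hrpos))).const_smul (w - 0)⁻¹
          refine h1.congr fun z hz => ?_
          rw [FF_succ, dslope_of_ne _ hw0, slope_def_module]
          rfl
        intro w hw
        by_cases hw0 : w = 0
        · subst hw0
          let ep : ℕ → ℝ := fun n => r / ((n : ℝ) + 2)
          have hep0 : ∀ n, 0 < ep n := fun n => by positivity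
          have hepr : ∀ n, ep n < r := fun n => by
            simp only [ep]
            rw [div_lt_iff₀ (by positivity)]
            have : (0:ℝ) ≤ n := Nat.cast_nonneg n
            nlinarith
          have hnorm : ∀ n, ‖((ep n : ℝ) : ℂ)‖ = ep n := fun n => by
            rw [Complex.norm_real, Real.norm_of_nonneg (hep0 n).le]
          have hmem : ∀ n, ((ep n : ℝ) : ℂ) ∈ Metric.ball (0:ℂ) r := fun n => by
            rw [mem_ball_zero_iff, hnorm]
            exact hepr n
          have hest : ∀ n, ∀ z ∈ Metric.ball z0 δ,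
              ‖FF (fun w => f (z, w)) (j + 1) ((ep n : ℝ) : ℂ) - FF (fun w => f (z, w)) (j + 1) 0‖ ≤
                ep n * ((2 / r) ^ (j + 2) * Bd) := by
            intro n z hz
            have h1 := (hreg (j + 2) z hz).2 _ (hmem n)
            rw [FF_succ] at h1
            have h2 := sub_smul_dslope (FF (fun w => f (z, w)) (j + 1)) 0 ((ep n : ℝ) : ℂ)
            rw [← h2, norm_smul, sub_zero, hnorm]
            exact mul_le_mul_of_nonneg_left h1 (hep0 n).le
          have hlim : Filter.Tendsto (fun n : ℕ => ep n * ((2 / r) ^ (j + 2) * Bd))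
              Filter.atTop (nhds 0) := by
            have h1 : Filter.Tendsto (fun n : ℕ => ep n) Filter.atTop (nhds 0) := by
              have h2 : Filter.Tendsto (fun n : ℕ => (n : ℝ) + 2) Filter.atTop Filter.atTop :=
                Filter.tendsto_atTop_add_const_right _ _ tendsto_natCast_atTop_atTop
              exact h2.const_div_atTop r
            have h3 := h1.mul_const ((2 / r) ^ (j + 2) * Bd)
            rwa [zero_mul] at h3
          have hunif : TendstoUniformlyOn
              (fun (n : ℕ) z => FF (fun w => f (z, w)) (j + 1) ((ep n : ℝ) : ℂ))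
              (fun z => FF (fun w => f (z, w)) (j + 1) 0) Filter.atTop (Metric.ball z0 δ) := by
            rw [Metric.tendstoUniformlyOn_iff]
            intro ε hε
            filter_upwards [hlim.eventually_lt_const hε] with n hn z hz
            rw [dist_comm, dist_eq_norm]
            exact (hest n z hz).trans_lt hn
          refine hunif.tendstoLocallyUniformlyOn.differentiableOn
            (Filter.Eventually.of_forall fun n => ?_) Metric.isOpen_ball
          refine hne _ (hmem n) ?_
          have := (hep0 n).ne'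
          exact_mod_cast this
        · exact hne w hw hw0
    have h1 := hmain m 0 (Metric.mem_ball_self hrpos)
    have h2 : DifferentiableAt ℂ (fun z => FF (fun w => f (z, w)) m 0) z0 :=
      h1.differentiableAt (Metric.ball_mem_nhds z0 hδ)
    have h3 : (fun z => iteratedDeriv m (fun w => f (z, w)) 0) =
        fun z => (m.factorial : ℂ) * FF (fun w => f (z, w)) m 0 := by
      funext z
      rw [FF_coeff (hana z) m]
      have : (m.factorial : ℂ) ≠ 0 := by exact_mod_cast m.factorial_ne_zero
      field_simp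
    rw [h3]
    exact h2.const_mul _
  · intro z
    have hkz := hpos z
    set f1 : ℂ := iteratedDeriv m (fun w => f (z, w)) 0 / (m.factorial : ℂ) with hf1
    have hfac : (0:ℝ) < (m.factorial : ℝ) := by exact_mod_cast m.factorial_pos
    have hR : ∀ R : ℝ, 0 < R → R ^ 2 * k z < 1 → ‖f1‖ * R ^ m ≤ Bd := by
      intro R hR0 hR1
      have hin : ∀ w : ℂ, ‖w‖ ≤ R → (z, w) ∈ U := by
        intro w hw
        have h3 : ‖w‖ ^ 2 ≤ R ^ 2 := pow_le_pow_left₀ (norm_nonneg _) hw 2
        exact (mul_le_mul_of_nonneg_right h3 hkz.le).trans_lt hR1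
      have hcl : DiffContOnCl ℂ (fun v => f (z, v)) (Metric.ball 0 R) := by
        apply DifferentiableOn.diffContOnCl
        rw [closure_ball _ hR0.ne']
        intro w hw
        exact (hfib z w (hin w (by simpa using hw))).differentiableWithinAt
      have h1 := Complex.norm_iteratedDeriv_le_of_forall_mem_sphere_norm_le m hR0 hcl
        (C := Bd) (fun w hw => by
          have hw' : ‖w‖ = R := by simpa using hw
          exact hb (z, w) (hin w hw'.le))
      rw [hf1, norm_div]
      have h2 : ‖(m.factorial : ℂ)‖ = (m.factorial : ℝ) := by simp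
      rw [h2]
      rw [le_div_iff₀ (by positivity)] at h1
      rw [div_mul_eq_mul_div, div_le_iff₀ hfac]
      linarith
    -- pass to the limit
    have hcont : Filter.Tendsto (fun t : ℝ => ‖f1‖ * (t * Real.sqrt (1 / k z)) ^ m)
        (𝓝[<] 1) (𝓝 (‖f1‖ * (1 * Real.sqrt (1 / k z)) ^ m)) := by
      apply Filter.Tendsto.mono_left _ nhdsWithin_le_nhds
      apply Continuous.tendsto
      fun_prop
    have hle : ‖f1‖ * (1 * Real.sqrt (1 / k z)) ^ m ≤ Bd := by
      refine le_of_tendsto hcont ?_
      have h1 : ∀ᶠ t : ℝ in 𝓝[<] (1:ℝ), 0 < t :=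
        mem_nhdsWithin_of_mem_nhds (lt_mem_nhds one_pos)
      filter_upwards [h1, self_mem_nhdsWithin] with t ht0 ht1
      have ht1' : t < 1 := ht1
      refine hR _ (by positivity) ?_
      rw [mul_pow, Real.sq_sqrt (by positivity)]
      have : t ^ 2 * (1 / k z) * k z = t ^ 2 := by field_simp
      rw [this]
      nlinarith
    rw [one_mul] at hle
    have h3 : (‖f1‖ * (Real.sqrt (1 / k z)) ^ m) ^ 2 ≤ Bd ^ 2 :=
      pow_le_pow_left₀ (by positivity) hle 2
    rw [mul_pow, ← pow_mul, mul_comm m 2, pow_mul, Real.sq_sqrt (by positivity)] at h3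
    have h4 : (0:ℝ) < k z ^ m := by positivity
    calc ‖f1‖ ^ 2 = ‖f1‖ ^ 2 * (1 / k z) ^ m * k z ^ m := by
          rw [mul_assoc, ← mul_pow]
          have : 1 / k z * k z = 1 := by field_simp
          rw [this, one_pow, mul_one]
      _ ≤ Bd ^ 2 * k z ^ m := mul_le_mul_of_nonneg_right h3 h4.le

end Pool.Agent.Helper662.Rg
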