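import Mathlib
import Pool.Agent.Helper269.KdJ

set_option autoImplicit false

namespace Pool.Agent.Helper662.Rg

theorem avg0 {f : ℂ → ℂ} (hf : DifferentiableOn ℂ f (Metric.ball 0 1)) {n l : ℕ}
    (hl : l < n) {ρ ε S : ℝ} (hρ0 : 0 < ρ) (hρ1 : ρ < 1)
    (hε : ∀ z : ℂ, ‖z‖ = ρ ^ 2 → z ^ n = (((ρ ^ 2) ^ n : ℝ) : ℂ) → ‖f z‖ ≤ ε)
    (hS : ∀ z : ℂ, ‖z‖ = ρ → ‖f z‖ ≤ S) :
    ‖iteratedDeriv l f 0 / (l.factorial : ℂ)‖ * (ρ ^ 2) ^ l ≤ ε + S * ρ ^ n / (1 - ρ ^ n) :=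
  Pool.Agent.Helper269.KdJ.S13313.avg_coeff hf hl hρ0 hρ1 hε hS

end Pool.Agent.Helper662.Rg
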