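import Mathlib

set_option autoImplicit false
set_option linter.unusedVariables false

namespace Pool.Agent.Helper662.Rg

open Set Filter Topology ComplexConjugate

/-- dummy -/
def dummy : ℕ := 0

end Pool.Agent.Helper662.Rg
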